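import Mathlib

set_option autoImplicit false

namespace Pool.Agent.Results.MP_3e1131_co.Bounded

/-- `A` contains a copy `a S + b` of `S` with `a ≥ 1` and `b` an integer. -/
def HasCopy (S A : Finset ℕ) : Prop :=
  ∃ (a : ℕ) (b : ℤ), 1 ≤ a ∧ ∀ s ∈ S, ∃ x ∈ A, (x : ℤ) = a * s + b

/-- Maker owns `A`, Breaker owns `B`, Maker is to move, and Maker can force a win using at most
`N` further selections of his own. -/
def MakerWins (S : Finset ℕ) : ℕ → Finset ℕ → Finset ℕ → Prop
  | 0, A, _ => HasCopy S A
  | N + 1, A, B => HasCopy S A ∨ ∃ x, x ∉ A ∧ x ∉ B ∧ (HasCopy S (insert x A) ∨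
      ∀ y, y ∉ insert x A → y ∉ B → MakerWins S N (insert x A) (insert y B))

section finite
variable (H : Finset ℕ → Prop)

mutual
/-- finite game on the free set `F`, Maker to move -/
inductive P1 : Finset ℕ → Finset ℕ → Prop
  | done {F A : Finset ℕ} : H A → P1 F A
  | move {F A : Finset ℕ} (x : ℕ) : x ∈ F → P2 (F.erase x) (insert x A) → P1 F A
/-- finite game on the free set `F`, Breaker to move -/
inductive P2 : Finset ℕ → Finset ℕ → Prop
  | done {F A : Finset ℕ} : H A → P2 F A
  | move {F A : Finset ℕ} : F.Nonempty → (∀ y ∈ F, P1 (F.erase y) A) → P2 F A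
end

variable {H}

theorem mono_aux (hH : ∀ A x, H A → H (insert x A)) : ∀ n (F A : Finset ℕ), F.card = n →
    (P2 H F A → P1 H F A) ∧ (∀ x ∈ F, P1 H F A → P1 H (F.erase x) (insert x A)) ∧
      (∀ x ∈ F, P2 H F A → P2 H (F.erase x) (insert x A)) := by
  intro n
  induction n using Nat.strong_induction_on with
  | _ n ih =>
  intro F A hF
  have h3 : ∀ x ∈ F, P2 H F A → P2 H (F.erase x) (insert x A) := by
    intro x hx h
    cases h with
    | done h => exact P2.done (hH _ _ h)
    | move hne h =>
      by_cases he : (F.erase x).Nonempty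
      · refine P2.move he ?_
        intro y hy
        have hyF := Finset.mem_of_mem_erase hy
        have hlt : (F.erase y).card < n := hF ▸ Finset.card_erase_lt_of_mem hyF
        have hx' : x ∈ F.erase y := Finset.mem_erase.2 ⟨(Finset.ne_of_mem_erase hy).symm, hx⟩
        have := (ih _ hlt (F.erase y) A rfl).2.1 x hx' (h y hyF)
        rwa [Finset.erase_right_comm] at this
      · have h1 := h x hx
        rw [Finset.not_nonempty_iff_eq_empty.1 he] at h1
        cases h1 with
        | done h => exact P2.done (hH _ _ h)
        | move z hz _ => simp at hz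
  refine ⟨?_, ?_, h3⟩
  · intro h
    cases h with
    | done h => exact P1.done h
    | move hne h =>
      obtain ⟨x, hx⟩ := hne
      exact P1.move x hx (h3 x hx (P2.move ⟨x, hx⟩ h))
  · intro x hx h
    cases h with
    | done h => exact P1.done (hH _ _ h)
    | move z hz h =>
      have hlt : (F.erase z).card < n := hF ▸ Finset.card_erase_lt_of_mem hz
      by_cases hzx : z = x
      · subst hzx
        exact (ih _ hlt _ _ rfl).1 h
      · have hx' : x ∈ F.erase z := Finset.mem_erase.2 ⟨fun e => hzx e.symm, hx⟩
        have := (ih _ hlt _ _ rfl).2.2 x hx' h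
        refine P1.move z (Finset.mem_erase.2 ⟨hzx, hz⟩) ?_
        rwa [Finset.erase_right_comm, Finset.insert_comm] at this

theorem steal (X : Finset ℕ) (hX : ∀ A B : Finset ℕ, X ⊆ A ∪ B → H A ∨ H B) :
    ∀ n (F A B : Finset ℕ), F.card = n → X ⊆ F ∪ (A ∪ B) → P1 H F A ∨ P2 H F B := by
  intro n
  induction n with
  | zero =>
    intro F A B hF h
    rw [Finset.card_eq_zero.1 hF] at h ⊢
    rcases hX A B (by simpa using h) with h | h
    · exact Or.inl (P1.done h)
    · exact Or.inr (P2.done h)
  | succ n ih =>
    intro F A B hF h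
    by_cases h1 : ∀ y ∈ F, P1 H (F.erase y) B
    · exact Or.inr (P2.move (Finset.card_pos.1 (by omega)) h1)
    · push Not at h1
      obtain ⟨y, hy, h2⟩ := h1
      have := ih (F.erase y) B (insert y A) (by rw [Finset.card_erase_of_mem hy]; omega) (by
        intro z hz
        have := h hz
        simp only [Finset.mem_union, Finset.mem_erase, Finset.mem_insert] at this ⊢
        by_cases hzy : z = y <;> tauto)
      rcases this with h3 | h3
      · exact absurd h3 h2
      · exact Or.inl (P1.move y hy h3)

end finite

theorem hasCopy_insert (S A : Finset ℕ) (x : ℕ) (h : HasCopy S A) : HasCopy S (insert x A) := by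
  obtain ⟨a, b, ha, h⟩ := h
  refine ⟨a, b, ha, fun s hs => ?_⟩
  obtain ⟨y, hy, e⟩ := h s hs
  exact ⟨y, Finset.mem_insert_of_mem hy, e⟩

theorem transfer (S : Finset ℕ) : ∀ N (F A B : Finset ℕ), F.card ≤ N → Disjoint F A →
    Disjoint F B → P1 (HasCopy S) F A → MakerWins S N A B := by
  intro N
  induction N with
  | zero =>
    intro F A B hF _ _ h
    cases h with
    | done h => exact h
    | move x hx _ => have := Finset.card_pos.2 ⟨x, hx⟩; omega
  | succ N ih =>
    intro F A B hF hA hB h
    cases h with
    | done h => exact Or.inl h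
    | move x hx h =>
      refine Or.inr ⟨x, Finset.disjoint_left.1 hA hx, Finset.disjoint_left.1 hB hx, Or.inr ?_⟩
      intro y _ _
      have hc : (F.erase x).card ≤ N := by rw [Finset.card_erase_of_mem hx]; omega
      have hA' : Disjoint (F.erase x) (insert x A) := by
        rw [Finset.disjoint_insert_right]
        exact ⟨by simp, hA.mono_left (Finset.erase_subset _ _)⟩
      have hB' : Disjoint (F.erase x) B := hB.mono_left (Finset.erase_subset _ _)
      by_cases hy : y ∈ F.erase x
      · refine ih ((F.erase x).erase y) _ _ ((Finset.card_erase_le).trans hc)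
          (hA'.mono_left (Finset.erase_subset _ _)) ?_ ?_
        · rw [Finset.disjoint_insert_right]
          exact ⟨by simp, hB'.mono_left (Finset.erase_subset _ _)⟩
        · cases h with
          | done h => exact P1.done h
          | move _ h => exact h y hy
      · refine ih (F.erase x) _ _ hc hA' ?_ ?_
        · rw [Finset.disjoint_insert_right]
          exact ⟨hy, hB'⟩
        · exact (mono_aux (hasCopy_insert S) _ _ _ rfl).1 h

theorem result : ∃ C : ℕ → ℕ, ∀ n : ℕ, 1 ≤ n → ∀ S : Finset ℕ, S.card = n →
    MakerWins S (C n) ∅ ∅ := by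
  classical
  have key : ∀ n : ℕ, ∃ c : ℕ, ∀ S : Finset ℕ, S.card = n → MakerWins S c ∅ ∅ := by
    intro n
    obtain ⟨ι, _, hι⟩ := Combinatorics.Line.exists_mono_in_high_dimension (Fin n) Bool
    refine ⟨Fintype.card (ι → Fin n), fun S hS => ?_⟩
    let e : Fin n → ℕ := fun i => S.orderEmbOfFin hS i
    have he : ∀ s ∈ S, ∃ i, e i = s := by
      intro s hs
      have : s ∈ Set.range (S.orderEmbOfFin hS) := by rw [Finset.range_orderEmbOfFin]; exact hs
      exact this
    let φ : (ι → Fin n) → ℕ := fun v => ∑ i, e (v i)
    let X : Finset ℕ := Finset.univ.image φ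
    have hX : ∀ A B : Finset ℕ, X ⊆ A ∪ B → HasCopy S A ∨ HasCopy S B := by
      intro A B hAB
      obtain ⟨l, c, hl⟩ := hι (fun v => decide (φ v ∈ A))
      let s : Finset ι := Finset.univ.filter (fun i => l.idxFun i = none)
      have hpos : 1 ≤ s.card := Finset.card_pos.2 ⟨l.proper.choose, by
        simp only [s, Finset.mem_filter, Finset.mem_univ, true_and]; exact l.proper.choose_spec⟩
      have hφ : ∀ x : Fin n, φ (l x) = s.card * e x + ∑ i ∈ sᶜ, ((l.idxFun i).map e).getD 0 := by
        intro x
        simp only [φ]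
        rw [← Finset.sum_add_sum_compl s]
        congr 1
        · rw [← smul_eq_mul, ← Finset.sum_const]
          apply Finset.sum_congr rfl
          intro i hi
          rw [l.apply_none _ _ (Finset.mem_filter.1 hi).2]
        · apply Finset.sum_congr rfl
          intro i hi
          have hi' : l.idxFun i ≠ none := by simpa [s] using hi
          obtain ⟨y, hy⟩ := Option.ne_none_iff_exists'.mp hi'
          rw [l.apply_some hy, hy]
          rfl
      have fin : ∀ D : Finset ℕ, (∀ x : Fin n, φ (l x) ∈ D) → HasCopy S D := by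
        intro D hD
        refine ⟨s.card, (∑ i ∈ sᶜ, ((l.idxFun i).map e).getD 0 : ℕ), hpos, ?_⟩
        intro t ht
        obtain ⟨x, rfl⟩ := he t ht
        exact ⟨_, hD x, by rw [hφ]; push_cast; ring⟩
      cases c with
      | true => exact Or.inl (fin A (fun x => by simpa using hl x))
      | false =>
        refine Or.inr (fin B (fun x => ?_))
        have h1 : φ (l x) ∉ A := by simpa using hl x
        have h2 := hAB (Finset.mem_image_of_mem φ (Finset.mem_univ (l x)))
        rcases Finset.mem_union.1 h2 with h | h
        · exact absurd h h1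
        · exact h
    have hP : P1 (HasCopy S) X ∅ := by
      rcases steal X hX _ X ∅ ∅ rfl (by simp) with h | h
      · exact h
      · exact (mono_aux (hasCopy_insert S) _ _ _ rfl).1 h
    exact transfer S _ X ∅ ∅ (Finset.card_image_le.trans (by simp)) (by simp) (by simp) hP
  choose C hC using key
  exact ⟨C, fun n _ S hS => hC n S hS⟩

end Pool.Agent.Results.MP_3e1131_co.Bounded
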